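import Pool.Agent.MP_2b113a_an.H33.Defs

/-!
Translations and convolutions of integrable functions on a unimodular group.
-/

set_option linter.unusedSectionVars false

namespace Pool.Agent.MP_2b113a_an.H23

open MeasureTheory Filter Topology Pool.Agent.MP_2b113a_an.H33
open scoped ENNReal

theorem cmp_congr {X : Type} [MeasurableSpace X] {m : Measure X} {f f' : X → X}
    (hf : MeasurePreserving f m m) (hf' : MeasurePreserving f' m m) (h : f = f')
    (ψ : Lp ℝ 1 m) : Lp.compMeasurePreserving f hf ψ = Lp.compMeasurePreserving f' hf' ψ := by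
  subst h; rfl

/-- Integration over a set, as a functional on integrable functions. -/
noncomputable def setI {X : Type} [MeasurableSpace X] (m : Measure X) (s : Set X) :
    Lp ℝ 1 m →L[ℝ] ℝ :=
  LinearMap.mkContinuous
    { toFun := fun f => ∫ x in s, f x ∂m
      map_add' := fun f g => by
        rw [← integral_add (L1.integrable_coeFn f).integrableOn
          (L1.integrable_coeFn g).integrableOn]
        exact integral_congr_ae (ae_restrict_of_ae (Lp.coeFn_add f g))
      map_smul' := fun c f => by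
        rw [RingHom.id_apply, ← integral_smul]
        exact integral_congr_ae (ae_restrict_of_ae (Lp.coeFn_smul c f)) } 1 fun f => by
    rw [one_mul, L1.norm_eq_integral_norm]
    exact (norm_integral_le_integral_norm _).trans
      (setIntegral_le_integral (L1.integrable_coeFn f).norm (.of_forall fun _ => norm_nonneg _))

theorem setI_apply {X : Type} [MeasurableSpace X] (m : Measure X) (s : Set X) (f : Lp ℝ 1 m) :
    setI m s f = ∫ x in s, f x ∂m := rfl

section

variable {G : Type} [Group G] [TopologicalSpace G] [IsTopologicalGroup G] [T2Space G]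
  [LocallyCompactSpace G] [SecondCountableTopology G] [MeasurableSpace G] [BorelSpace G]
  (m : Measure G) [m.IsHaarMeasure] [m.IsMulRightInvariant]

theorem lt_eq (g : G) (ψ : Lp ℝ 1 m) : lt m g ψ =
    Lp.compMeasurePreserving (fun y => g⁻¹ * y) (measurePreserving_mul_left m g⁻¹) ψ := rfl

theorem rt_eq (g : G) (ψ : Lp ℝ 1 m) : rt m g ψ =
    Lp.compMeasurePreserving (fun y => y * g⁻¹) (measurePreserving_mul_right m g⁻¹) ψ := rfl

theorem lt_ae (g : G) (ψ : Lp ℝ 1 m) : lt m g ψ =ᵐ[m] fun y => ψ (g⁻¹ * y) :=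
  Lp.coeFn_compMeasurePreserving ψ (measurePreserving_mul_left m g⁻¹)

theorem rt_ae (g : G) (ψ : Lp ℝ 1 m) : rt m g ψ =ᵐ[m] fun y => ψ (y * g⁻¹) :=
  Lp.coeFn_compMeasurePreserving ψ (measurePreserving_mul_right m g⁻¹)

theorem cont_lt (ψ : Lp ℝ 1 m) : Continuous fun g => lt m g ψ := by
  let F : C(G × G, G) := ⟨fun p => p.1⁻¹ * p.2, by fun_prop⟩
  exact Continuous.compMeasurePreservingLp (μ := m) (ν := m) (f := fun _ => ψ)
    (g := fun g => F.curry g) continuous_const F.curry.continuous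
    (fun g => measurePreserving_mul_left m g⁻¹) ENNReal.one_ne_top

theorem cont_rt (ψ : Lp ℝ 1 m) : Continuous fun g => rt m g ψ := by
  let F : C(G × G, G) := ⟨fun p => p.2 * p.1⁻¹, by fun_prop⟩
  exact Continuous.compMeasurePreservingLp (μ := m) (ν := m) (f := fun _ => ψ)
    (g := fun g => F.curry g) continuous_const F.curry.continuous
    (fun g => measurePreserving_mul_right m g⁻¹) ENNReal.one_ne_top

theorem integrable_smul (ψ : Lp ℝ 1 m) (F : G → Lp ℝ 1 m) (hF : Continuous F) (C : ℝ)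
    (hC : ∀ g, ‖F g‖ ≤ C) : Integrable (fun y => ψ y • F y) m := by
  refine Integrable.mono' ((L1.integrable_coeFn ψ).norm.mul_const C)
    ((Lp.aestronglyMeasurable ψ).smul hF.aestronglyMeasurable) (.of_forall fun y => ?_)
  rw [norm_smul]
  exact mul_le_mul_of_nonneg_left (hC y) (norm_nonneg _)

theorem setI_lt {s : Set G} (hs : MeasurableSet s) (y : G) (ρ : Lp ℝ 1 m) :
    setI m s (lt m y ρ) = ∫ w, s.indicator (fun _ => (1 : ℝ)) (y * w) * ρ w ∂m := by
  rw [setI_apply, ← integral_indicator hs,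
    ← integral_mul_left_eq_self (fun w => s.indicator (fun _ => (1 : ℝ)) (y * w) * ρ w) y⁻¹]
  refine integral_congr_ae ((lt_ae m y ρ).mono fun x hx => ?_)
  by_cases h : x ∈ s
  · simp [h, hx]
  · simp [h]

theorem setI_rt {s : Set G} (hs : MeasurableSet s) (w : G) (ψ : Lp ℝ 1 m) :
    setI m s (rt m w ψ) = ∫ y, s.indicator (fun _ => (1 : ℝ)) (y * w) * ψ y ∂m := by
  rw [setI_apply, ← integral_indicator hs,
    ← integral_mul_right_eq_self (fun y => s.indicator (fun _ => (1 : ℝ)) (y * w) * ψ y) w⁻¹]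
  refine integral_congr_ae ((rt_ae m w ψ).mono fun x hx => ?_)
  by_cases h : x ∈ s
  · simp [h, hx]
  · simp [h]

theorem conv_eq (ψ ρ : Lp ℝ 1 m) :
    ∫ y, ψ y • lt m y ρ ∂m = ∫ w, ρ w • rt m w ψ ∂m := by
  have h1 := integrable_smul m ψ _ (cont_lt m ρ) ‖ρ‖ fun g => ((lt m g).norm_map ρ).le
  have h2 := integrable_smul m ρ _ (cont_rt m ψ) ‖ψ‖ fun g => ((rt m g).norm_map ψ).le
  apply Lp.ext
  refine Lp.ae_eq_of_forall_setIntegral_eq _ _ one_ne_zero ENNReal.one_ne_top
    (fun s _ _ => (L1.integrable_coeFn _).integrableOn)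
    (fun s _ _ => (L1.integrable_coeFn _).integrableOn) fun s hs _ => ?_
  rw [← setI_apply, ← setI_apply, ← ContinuousLinearMap.integral_comp_comm _ h1,
    ← ContinuousLinearMap.integral_comp_comm _ h2]
  simp only [map_smul, smul_eq_mul, setI_lt m hs, setI_rt m hs, ← integral_const_mul]
  have hint : Integrable (Function.uncurry fun y w : G =>
      ψ y * (s.indicator (fun _ => (1 : ℝ)) (y * w) * ρ w)) (m.prod m) := by
    have h3 := (L1.integrable_coeFn ψ).mul_prod (L1.integrable_coeFn ρ)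
    have h4 : Measurable fun p : G × G => s.indicator (fun _ => (1 : ℝ)) (p.1 * p.2) :=
      (measurable_const.indicator hs).comp measurable_mul
    have h5 := h3.bdd_mul (c := 1) h4.aestronglyMeasurable (.of_forall fun p => by
      by_cases h : p.1 * p.2 ∈ s <;> simp [h])
    refine h5.congr (.of_forall fun p => ?_)
    simp only [Function.uncurry]
    ring
  rw [integral_integral_swap hint]
  congr 1
  ext w
  congr 1
  ext y
  ring

theorem conv_apply (Φ : Lp ℝ 1 m →L[ℝ] ℝ) (ψ ρ : Lp ℝ 1 m) :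
    ∫ y, ψ y * Φ (lt m y ρ) ∂m = ∫ w, ρ w * Φ (rt m w ψ) ∂m := by
  have h1 := integrable_smul m ψ _ (cont_lt m ρ) ‖ρ‖ fun g => ((lt m g).norm_map ρ).le
  have h2 := integrable_smul m ρ _ (cont_rt m ψ) ‖ψ‖ fun g => ((rt m g).norm_map ψ).le
  have h := congrArg Φ (conv_eq m ψ ρ)
  rw [← ContinuousLinearMap.integral_comp_comm _ h1,
    ← ContinuousLinearMap.integral_comp_comm _ h2] at h
  simpa only [map_smul, smul_eq_mul] using h

theorem lt_one (ψ : Lp ℝ 1 m) : lt m 1 ψ = ψ := by
  rw [lt_eq, cmp_congr _ (MeasurePreserving.id m) (by ext; simp),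
    Lp.compMeasurePreserving_id_apply]

theorem const_aux (Φ : Lp ℝ 1 m →L[ℝ] ℝ) (hΦ : ∀ g ψ, Φ (rt m g ψ) = Φ ψ) (ρ : Lp ℝ 1 m)
    (hρ : ∫ w, ρ w ∂m = 0) : Φ ρ = 0 := by
  have hc : Continuous fun y => Φ (lt m y ρ) := Φ.continuous.comp (cont_lt m ρ)
  have h0 : (fun y => Φ (lt m y ρ)) =ᵐ[m] 0 := by
    refine ae_eq_zero_of_forall_setIntegral_eq_of_sigmaFinite (fun s _ hs => ?_) fun s hs hs' => ?_
    · refine Measure.integrableOn_of_bounded (M := ‖Φ‖ * ‖ρ‖) hs.ne hc.aestronglyMeasurable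
        (.of_forall fun y => ?_)
      exact (Φ.le_opNorm _).trans (by rw [(lt m y).norm_map])
    · have h := conv_apply m Φ (indicatorConstLp 1 hs hs'.ne (1 : ℝ)) ρ
      simp only [hΦ] at h
      rw [integral_mul_const, hρ, zero_mul] at h
      rw [← h, ← integral_indicator hs]
      refine integral_congr_ae ((indicatorConstLp_coeFn (p := 1) (hs := hs) (hμs := hs'.ne)
        (c := (1 : ℝ))).mono fun y hy => ?_)
      simp only [hy]
      by_cases h : y ∈ s <;> simp [h]
  have h1 := congrFun ((hc.ae_eq_iff_eq m continuous_zero).1 h0) 1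
  simpa only [lt_one, Pi.zero_apply] using h1

end

theorem conv : ConvStmt := by
  intro G _ _ _ _ _ _ _ _ m _ _
  refine ⟨lt_one m, fun ψ => ?_, fun g h ψ => ?_, fun g h ψ => ?_, fun g h ψ => ?_, cont_lt m,
    cont_rt m, conv_apply m, fun Φ hΦ g ψ => ?_⟩
  · rw [rt_eq, cmp_congr _ (MeasurePreserving.id m) (by ext; simp),
      Lp.compMeasurePreserving_id_apply]
  · rw [lt_eq, lt_eq, lt_eq, ← Lp.compMeasurePreserving_comp_apply]
    exact cmp_congr _ _ (by ext; simp [mul_assoc]) _
  · rw [rt_eq, rt_eq, rt_eq, ← Lp.compMeasurePreserving_comp_apply]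
    exact cmp_congr _ _ (by ext; simp [mul_assoc]) _
  · rw [lt_eq, rt_eq, rt_eq, lt_eq, ← Lp.compMeasurePreserving_comp_apply,
      ← Lp.compMeasurePreserving_comp_apply]
    exact cmp_congr _ _ (by ext; simp [mul_assoc]) _
  · rw [← sub_eq_zero, ← map_sub]
    refine const_aux m Φ hΦ _ ?_
    rw [integral_congr_ae (Lp.coeFn_sub _ _)]
    simp only [Pi.sub_apply]
    rw [integral_sub (L1.integrable_coeFn _) (L1.integrable_coeFn _),
      integral_congr_ae (lt_ae m g ψ), integral_mul_left_eq_self (fun y => ψ y) g⁻¹, sub_self]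

end Pool.Agent.MP_2b113a_an.H23
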